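import Pool.Agent.N20.EN.Stm
import Pool.Agent.Y63.NV.Final
import Pool.Agent.Y171.NV.Kfin

/-!
# From automorphisms to orbits (Burnside)
-/

set_option autoImplicit false

open scoped Classical BigOperators

noncomputable section

namespace Pool.Agent.N301.ENBASB

open Pool.Agent.Y63.NV
open Pool.Agent.Y63.AWC (IsIrreducibleCharacter)
open Pool.Agent.N20.EN

/-! ### counting -/

section count

variable {K : Type} [Group K]

theorem burn {X : Type} (H : Subgroup K) (r : K → X → X → Prop)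
    (ex : ∀ h ∈ H, ∀ x, ∃ y, r h x y)
    (un : ∀ h ∈ H, ∀ x y y', r h x y → r h x y' → y = y')
    (one : ∀ x, r 1 x x)
    (mul : ∀ h ∈ H, ∀ h' ∈ H, ∀ x y w, r h x y → r h' y w → r (h' * h) x w) :
    Nat.card H * Nat.card (Quot fun x y => ∃ h ∈ H, r h x y) =
      Nat.card (Σ h : H, {x // r h x x}) := by
  let act : MulAction H X :=
    { smul := fun h x => (ex h.1 h.2 x).choose
      one_smul := fun x => un 1 H.one_mem x _ _ (ex 1 H.one_mem x).choose_spec (one x)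
      mul_smul := fun h h' x => un (h.1 * h'.1) (H.mul_mem h.2 h'.2) x _ _
        (ex (h.1 * h'.1) (H.mul_mem h.2 h'.2) x).choose_spec
        (mul h'.1 h'.2 h.1 h.2 x _ _ (ex h'.1 h'.2 x).choose_spec
          (ex h.1 h.2 (ex h'.1 h'.2 x).choose).choose_spec) }
  have hact : ∀ (h : H) (x : X), r h x (h • x) := fun h x => (ex h.1 h.2 x).choose_spec
  have hfix : ∀ (h : H) (x y : X), r h x y ↔ h • x = y := by
    intro h x y
    constructor
    · intro hh
      exact un h h.2 x _ _ (hact h x) hh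
    · rintro rfl
      exact hact h x
  have h1 : Nat.card (Σ h : H, {x // r h x x}) =
      Nat.card (Σ h : H, MulAction.fixedBy X h) := by
    refine Nat.card_congr (Equiv.sigmaCongrRight fun h => ?_)
    exact Equiv.subtypeEquivRight fun x => hfix h x x
  have h2 : Nat.card (Quot fun x y => ∃ h ∈ H, r h x y) =
      Nat.card (Quotient (MulAction.orbitRel H X)) := by
    refine Nat.card_congr (Quot.congrRight fun x y => ?_)
    constructor
    · rintro ⟨h, hh, hr⟩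
      have h3 := (hfix ⟨h, hh⟩ x y).1 hr
      exact (MulAction.orbitRel H X).symm ⟨⟨h, hh⟩, h3⟩
    · intro hxy
      obtain ⟨h, hh⟩ := (MulAction.orbitRel H X).symm hxy
      exact ⟨h.1, h.2, (hfix h x y).2 hh⟩
  rw [h1, h2, Nat.card_congr (MulAction.sigmaFixedByEquivOrbitsProdGroup H X), Nat.card_prod,
    mul_comm]

theorem count {W : Type} [Finite K] [Fintype K] [Finite W] (M N : Subgroup K) (r : K → W → Prop)
    (hr : ∀ m ∈ M ⊓ N, ∀ k ∈ N, ∀ ξ, r k ξ → r (m * k) ξ) :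
    ∑ k : K, Nat.card ↥(M ⊓ N) * Nat.card {ξ // ∃ g ∈ M, g * k ∈ N ∧ r (g * k) ξ} =
      Nat.card M * Nat.card (Σ k : N, {ξ // r k ξ}) := by
  have h1 : ∀ k : K, Nat.card ↥(M ⊓ N) * Nat.card {ξ // ∃ g ∈ M, g * k ∈ N ∧ r (g * k) ξ} =
      Nat.card {s : M × W // (s.1 : K) * k ∈ N ∧ r (s.1 * k) s.2} := by
    intro k
    rw [← Nat.card_prod]
    have gs : ∀ ξ : {ξ // ∃ g ∈ M, g * k ∈ N ∧ r (g * k) ξ}, ∃ g : M, (g : K) * k ∈ N ∧
        r (g * k) ξ.1 := fun ξ => by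
      obtain ⟨g, hg, h2, h3⟩ := ξ.2
      exact ⟨⟨g, hg⟩, h2, h3⟩
    choose g hg1 hg2 using gs
    refine Nat.card_congr
      { toFun := fun s => ⟨(⟨s.1.1, (Subgroup.mem_inf.1 s.1.2).1⟩ * g s.2, s.2.1), ?_, ?_⟩
        invFun := fun s => (⟨s.1.1.1 * (g ⟨s.1.2, s.1.1.1, s.1.1.2, s.2.1, s.2.2⟩).1⁻¹, ?_⟩,
          ⟨s.1.2, s.1.1.1, s.1.1.2, s.2.1, s.2.2⟩)
        left_inv := ?_
        right_inv := ?_ }
    · change s.1.1 * (g s.2).1 * k ∈ N
      rw [mul_assoc]
      exact N.mul_mem (Subgroup.mem_inf.1 s.1.2).2 (hg1 s.2)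
    · change r (s.1.1 * (g s.2).1 * k) s.2.1
      rw [mul_assoc]
      exact hr _ s.1.2 _ (hg1 s.2) _ (hg2 s.2)
    · refine Subgroup.mem_inf.2 ⟨M.mul_mem s.1.1.2 (M.inv_mem (Subtype.prop _)), ?_⟩
      have h2 := N.mul_mem s.2.1 (N.inv_mem
        (hg1 ⟨s.1.2, s.1.1.1, s.1.1.2, s.2.1, s.2.2⟩))
      have h3 : (s.1.1 : K) * k * ((g ⟨s.1.2, s.1.1.1, s.1.1.2, s.2.1, s.2.2⟩ : K) * k)⁻¹ =
          s.1.1.1 * (g ⟨s.1.2, s.1.1.1, s.1.1.2, s.2.1, s.2.2⟩).1⁻¹ := by group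
      rwa [h3] at h2
    · rintro ⟨m, ξ⟩
      refine Prod.ext (Subtype.ext ?_) (Subtype.ext rfl)
      change m.1 * (g ξ).1 * (g ξ).1⁻¹ = m.1
      rw [mul_inv_cancel_right]
    · rintro ⟨⟨m, ξ⟩, hs⟩
      refine Subtype.ext (Prod.ext (Subtype.ext ?_) rfl)
      change m.1 * (g ⟨ξ, m.1, m.2, hs.1, hs.2⟩).1⁻¹ * (g ⟨ξ, m.1, m.2, hs.1, hs.2⟩).1 = m.1
      rw [inv_mul_cancel_right]
  rw [Finset.sum_congr rfl fun k _ => h1 k, ← Nat.card_sigma, ← Nat.card_prod]
  refine Nat.card_congr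
    { toFun := fun s => (s.2.1.1, ⟨⟨s.2.1.1 * s.1, s.2.2.1⟩, ⟨s.2.1.2, s.2.2.2⟩⟩)
      invFun := fun s => ⟨s.1.1⁻¹ * s.2.1.1, ⟨(s.1, s.2.2.1), ?_, ?_⟩⟩
      left_inv := ?_
      right_inv := ?_ }
  · change (s.1 : K) * (s.1.1⁻¹ * s.2.1.1) ∈ N
    rw [mul_inv_cancel_left]
    exact s.2.1.2
  · change r ((s.1 : K) * (s.1.1⁻¹ * s.2.1.1)) s.2.2.1
    rw [mul_inv_cancel_left]
    exact s.2.2.2
  · rintro ⟨k, ⟨⟨m, ξ⟩, hs⟩⟩
    have h2 : m.1⁻¹ * (m.1 * k) = k := inv_mul_cancel_left _ _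
    refine Sigma.ext h2 ?_
    refine (Subtype.heq_iff_coe_eq ?_).2 rfl
    intro x
    change (x.1.1 * (m.1⁻¹ * (m.1 * k)) ∈ N ∧ r (x.1.1 * (m.1⁻¹ * (m.1 * k))) x.2) ↔
      (x.1.1 * k ∈ N ∧ r (x.1.1 * k) x.2)
    rw [h2]
  · rintro ⟨m, ⟨n, ξ⟩⟩
    have h2 : m.1 * (m.1⁻¹ * n.1) = n.1 := mul_inv_cancel_left _ _
    refine Prod.ext rfl (Sigma.ext (Subtype.ext h2) ?_)
    refine (Subtype.heq_iff_coe_eq ?_).2 rfl
    intro x
    change r (m.1 * (m.1⁻¹ * n.1)) x ↔ r n.1 x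
    rw [h2]

end count

/-! ### conjugation -/

section conj

variable {K : Type} [Group K]

/-- `h` normalises `J` -/
def Nz (J : Subgroup K) (h : K) : Prop := ∀ x, x ∈ J ↔ h * x * h⁻¹ ∈ J

/-- the conjugation by `h` -/
def cje (J : Subgroup K) (h : K) (hJ : Nz J h) : J ≃* J where
  toFun x := ⟨h * x * h⁻¹, (hJ x).1 x.2⟩
  invFun y := ⟨h⁻¹ * y * h, by
    rw [hJ]
    have h1 : h * (h⁻¹ * (y : K) * h) * h⁻¹ = y := by group
    rw [h1]
    exact y.2⟩
  left_inv x := Subtype.ext (by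
    change h⁻¹ * (h * (x : K) * h⁻¹) * h = x
    group)
  right_inv x := Subtype.ext (by
    change h * (h⁻¹ * (x : K) * h) * h⁻¹ = x
    group)
  map_mul' x y := Subtype.ext (by
    change h * ((x : K) * y) * h⁻¹ = h * x * h⁻¹ * (h * y * h⁻¹)
    group)

theorem cje_symm {J : Subgroup K} {h : K} (hJ : Nz J h) (y : J) :
    (((cje J h hJ).symm y : J) : K) = h⁻¹ * y * h := rfl

variable {Y : Type}

theorem cj_ex {J : Subgroup K} {h : K} (hJ : Nz J h) (φ : J → Y) :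
    CjF h φ (fun x => φ ((cje J h hJ).symm x)) := by
  intro x y hxy
  change φ ((cje J h hJ).symm y) = φ x
  have h1 : (cje J h hJ).symm y = x := by
    apply Subtype.ext
    rw [cje_symm, hxy]
    group
  rw [h1]

theorem cj_un {J : Subgroup K} {h : K} (hJ : Nz J h) {φ φ' φ'' : J → Y} (h1 : CjF h φ φ')
    (h2 : CjF h φ φ'') : φ' = φ'' := by
  funext y
  have h3 : (y : K) = h * ((cje J h hJ).symm y : J) * h⁻¹ := by
    rw [cje_symm]
    group
  exact (h1 _ y h3).trans (h2 _ y h3).symm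

theorem cj_one {J : Subgroup K} (φ : J → Y) : CjF 1 φ φ := by
  intro x y hxy
  have h1 : y = x := by
    apply Subtype.ext
    rw [hxy]
    group
  rw [h1]

theorem cj_mul {J : Subgroup K} {h h' : K} (hJ : Nz J h) {φ φ' φ'' : J → Y} (h1 : CjF h φ φ')
    (h2 : CjF h' φ' φ'') : CjF (h' * h) φ φ'' := by
  intro x y hxy
  have h3 := h1 x ⟨h * x * h⁻¹, (hJ x).1 x.2⟩ rfl
  have h4 := h2 ⟨h * x * h⁻¹, (hJ x).1 x.2⟩ y (by
    rw [hxy]
    change h' * h * (x : K) * (h' * h)⁻¹ = h' * (h * x * h⁻¹) * h'⁻¹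
    group)
  exact h4.trans h3

theorem cj_cls {J : Subgroup K} {φ : J → Y} (hφ : ∀ g x : J, φ (g * x * g⁻¹) = φ x) {m : K}
    (hm : m ∈ J) : CjF m φ φ := by
  intro x y hxy
  have h1 : y = (⟨m, hm⟩ : J) * x * (⟨m, hm⟩ : J)⁻¹ := Subtype.ext hxy
  rw [h1, hφ]

theorem nz_normal (M : Subgroup K) [hM : M.Normal] (h : K) : Nz M h := by
  intro x
  constructor
  · intro hx
    exact hM.conj_mem x hx h
  · intro hx
    have h1 := hM.conj_mem _ hx h⁻¹
    have h2 : h⁻¹ * (h * x * h⁻¹) * h⁻¹⁻¹ = x := by group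
    rwa [h2] at h1

theorem nz_inf (M N : Subgroup K) [hM : M.Normal] {h : K} (hh : h ∈ N) : Nz (M ⊓ N) h := by
  intro x
  rw [Subgroup.mem_inf, Subgroup.mem_inf]
  refine and_congr (nz_normal M h x) ?_
  constructor
  · intro hx
    exact N.mul_mem (N.mul_mem hh hx) (N.inv_mem hh)
  · intro hx
    have h1 := N.mul_mem (N.mul_mem (N.inv_mem hh) hx) hh
    have h2 : h⁻¹ * (h * x * h⁻¹) * h = x := by group
    rwa [h2] at h1

end conj

/-! ### orbits of characters -/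

section chars

variable {F : Type} [Field F] {K : Type} [Group K]

theorem trm_ex (M : Subgroup K) [M.Normal] {z : K → F} (hz : InZ M z) {c : F} (h : K)
    (φ : TrM M M z c) : ∃ φ' : TrM M M z c, CjF h φ.1 φ'.1 := by
  have hJ := nz_normal M h
  have hi : IsIrrTrace (fun x => φ.1 ((cje M h hJ).symm x)) := B77.irr_comp _ φ.2.1
  refine ⟨⟨fun x => φ.1 ((cje M h hJ).symm x), hi, ?_, ?_⟩, cj_ex hJ φ.1⟩
  · intro m hm x y hxy
    have h1 : y = (⟨m, hm⟩ : M) * x * (⟨m, hm⟩ : M)⁻¹ := Subtype.ext hxy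
    rw [h1]
    exact B77.irr_conj hi ⟨m, hm⟩ x
  · intro x
    have h1 := φ.2.2.2 ((cje M h hJ).symm x)
    have h3 := finsum_comp_equiv (cje M h hJ).symm.toEquiv
      (f := fun g : M => z g * φ.1 (g * (cje M h hJ).symm x))
    refine Eq.trans ?_ (h3.trans h1)
    refine finsum_congr fun g => ?_
    change z g * φ.1 ((cje M h hJ).symm (g * x)) =
      z ((cje M h hJ).symm g : M) * φ.1 ((cje M h hJ).symm g * (cje M h hJ).symm x)
    rw [map_mul, cje_symm]
    have h2 := hz.conj h⁻¹ g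
    rw [inv_inv] at h2
    rw [h2]

theorem orbL_eq (M : Subgroup K) [M.Normal] {z : K → F} (hz : InZ M z) (c : F) :
    Nat.card (⊤ : Subgroup K) * OrbL M M ⊤ z c =
      Nat.card (Σ h : (⊤ : Subgroup K), {φ : TrM M M z c // CjF (h : K) φ.1 φ.1}) := by
  refine burn (⊤ : Subgroup K) (fun h (φ φ' : TrM M M z c) => CjF h φ.1 φ'.1) ?_ ?_ ?_ ?_
  · intro h _ φ
    exact trm_ex M hz h φ
  · intro h _ φ φ' φ'' h1 h2
    exact Subtype.ext (cj_un (nz_normal M h) h1 h2)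
  · intro φ
    exact cj_one φ.1
  · intro h _ h' _ φ φ' φ'' h1 h2
    exact cj_mul (nz_normal M h) h1 h2

theorem wtj_ex {p : ℕ} {red : integralClosure ℤ ℂ →+* F} (M Q : Subgroup K) [M.Normal]
    {z : K → F} (hz : InZ M z) {c : F} {h : K} (hh : h ∈ Subgroup.normalizer (Q : Set K))
    (ξ : WtJ p red (M ⊓ Subgroup.normalizer (Q : Set K)) Q z c) :
    ∃ ξ' : WtJ p red (M ⊓ Subgroup.normalizer (Q : Set K)) Q z c, CjF h ξ.1 ξ'.1 := by
  have hJ := nz_inf M (Subgroup.normalizer (Q : Set K)) hh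
  refine ⟨⟨fun x => ξ.1 ((cje _ h hJ).symm x), ?_, ?_⟩, cj_ex hJ ξ.1⟩
  · refine Pool.Agent.Y624.NV.isWt_comp (cje _ h hJ).symm (fun x => ?_) ξ.2.1
    rw [Subgroup.mem_subgroupOf, Subgroup.mem_subgroupOf, cje_symm,
      Subgroup.mem_normalizer_iff.1 hh]
    have h1 : h * (h⁻¹ * (x : K) * h) * h⁻¹ = x := by group
    rw [h1]
  · have h1 := Pool.Agent.Y624.NV.centralValue_comp red (cje _ h hJ).symm ξ.2.1.irr
      (f := fun x : ↥(M ⊓ Subgroup.normalizer (Q : Set K)) => z x) (fun g x => hz.conj g x)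
    have h3 : (fun x : ↥(M ⊓ Subgroup.normalizer (Q : Set K)) => z x) =
        fun x => z ((cje _ h hJ).symm x : ↥(M ⊓ Subgroup.normalizer (Q : Set K))) := by
      funext x
      rw [cje_symm]
      have h2 := hz.conj h⁻¹ x
      rw [inv_inv] at h2
      rw [h2]
    exact (congrArg (centralValue red fun x => ξ.1 ((cje _ h hJ).symm x)) h3).trans
      (h1.trans ξ.2.2)

theorem orbW_eq (p : ℕ) (red : integralClosure ℤ ℂ →+* F) (M Q : Subgroup K) [M.Normal]
    {z : K → F} (hz : InZ M z) (c : F) :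
    Nat.card (Subgroup.normalizer (Q : Set K)) *
      OrbW p red M (Subgroup.normalizer (Q : Set K)) Q z c =
      Nat.card (Σ h : Subgroup.normalizer (Q : Set K),
        {ξ : WtJ p red (M ⊓ Subgroup.normalizer (Q : Set K)) Q z c // CjF (h : K) ξ.1 ξ.1}) := by
  refine burn (Subgroup.normalizer (Q : Set K))
    (fun h (ξ ξ' : WtJ p red (M ⊓ Subgroup.normalizer (Q : Set K)) Q z c) => CjF h ξ.1 ξ'.1)
    ?_ ?_ ?_ ?_
  · intro h hh ξ
    exact wtj_ex M Q hz hh ξ
  · intro h hh ξ ξ' ξ'' h1 h2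
    exact Subtype.ext (cj_un (nz_inf M _ hh) h1 h2)
  · intro ξ
    exact cj_one ξ.1
  · intro h hh h' _ ξ ξ' ξ'' h1 h2
    exact cj_mul (nz_inf M _ hh) h1 h2

end chars

/-! ### the subgroups of `M` -/

section trans

variable {F : Type} [Field F] {K : Type} [Group K]

/-- the image of a subgroup of `M` -/
abbrev im (M : Subgroup K) (R : Subgroup M) : Subgroup K := R.map M.subtype

theorem mem_im {M : Subgroup K} {R : Subgroup M} {x : M} : (x : K) ∈ im M R ↔ x ∈ R := by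
  constructor
  · rintro ⟨y, hy, hxy⟩
    have h1 : y = x := Subtype.ext hxy
    rwa [← h1]
  · intro h
    exact ⟨x, h, rfl⟩

theorem im_le (M : Subgroup K) (R : Subgroup M) : im M R ≤ M := by
  rintro _ ⟨y, _, rfl⟩
  exact y.2

theorem norm_gen {M : Subgroup K} [M.Normal] {R : Subgroup M} {g : K} :
    g ∈ Subgroup.normalizer (im M R : Set K) ↔
      ∀ x : M, x ∈ R ↔ g * (x : K) * g⁻¹ ∈ im M R := by
  rw [Subgroup.mem_normalizer_iff]
  constructor
  · intro h x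
    rw [← h x, mem_im]
  · intro h y
    by_cases hy : y ∈ M
    · have h1 := h ⟨y, hy⟩
      rw [← h1]
      exact mem_im (x := ⟨y, hy⟩)
    · constructor
      · intro h1
        exact absurd (im_le M R h1) hy
      · intro h1
        exact absurd ((nz_normal M g y).2 (im_le M R h1)) hy

theorem norm_im {M : Subgroup K} [M.Normal] {R : Subgroup M} {x : M} :
    (x : K) ∈ Subgroup.normalizer (im M R : Set K) ↔ x ∈ Subgroup.normalizer (R : Set M) := by
  rw [norm_gen, Subgroup.mem_normalizer_iff]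
  exact forall_congr' fun y => iff_congr Iff.rfl (mem_im (x := x * y * x⁻¹))

/-- the normalizers correspond -/
def ne (M : Subgroup K) [M.Normal] (R : Subgroup M) :
    ↥(Subgroup.normalizer (R : Set M)) ≃* ↥(M ⊓ Subgroup.normalizer (im M R : Set K)) where
  toFun x := ⟨x.1.1, Subgroup.mem_inf.2 ⟨x.1.2, norm_im.2 x.2⟩⟩
  invFun y := ⟨⟨y.1, (Subgroup.mem_inf.1 y.2).1⟩,
    (norm_im (x := ⟨y.1, (Subgroup.mem_inf.1 y.2).1⟩)).1 (Subgroup.mem_inf.1 y.2).2⟩
  left_inv _ := rfl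
  right_inv _ := rfl
  map_mul' _ _ := rfl

theorem t_wt {p : ℕ} (M : Subgroup K) [M.Normal] (R : Subgroup M)
    (ψ : ↥(M ⊓ Subgroup.normalizer (im M R : Set K)) → ℂ) :
    IsWt p (R.subgroupOf (Subgroup.normalizer (R : Set M))) (fun x => ψ (ne M R x)) ↔
      IsWt p ((im M R).subgroupOf (M ⊓ Subgroup.normalizer (im M R : Set K))) ψ := by
  refine Pool.Agent.Y624.NV.isWt_iff (ne M R) fun x => ?_
  rw [Subgroup.mem_subgroupOf, Subgroup.mem_subgroupOf]
  exact mem_im (x := x.1)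

theorem t_cv (red : integralClosure ℤ ℂ →+* F) (M : Subgroup K) [M.Normal] (R : Subgroup M)
    {z : K → F} (hz : InZ M z) (ψ : ↥(M ⊓ Subgroup.normalizer (im M R : Set K)) → ℂ)
    (hψ : IsIrreducibleCharacter ψ) :
    centralValue red (fun x => ψ (ne M R x))
      (fun x : Subgroup.normalizer (R : Set M) => z x) = centralValue red ψ (fun x => z x) :=
  Pool.Agent.Y624.NV.centralValue_comp red (ne M R) hψ
    (f := fun x : ↥(M ⊓ Subgroup.normalizer (im M R : Set K)) => z x) (fun g x => hz.conj g x)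

theorem conj_eq {M : Subgroup K} [M.Normal] (k : K) (g x : M) :
    ((g * (MulAut.conjNormal k : MulAut M) x * g⁻¹ : M) : K) =
      ((g : K) * k) * x * ((g : K) * k)⁻¹ := by
  change (g : K) * ((MulAut.conjNormal k : MulAut M) x : K) * (g : K)⁻¹ = _
  rw [MulAut.conjNormal_apply]
  group

theorem t_fix (M : Subgroup K) [M.Normal] (R : Subgroup M) (k : K)
    (ψ : ↥(M ⊓ Subgroup.normalizer (im M R : Set K)) → ℂ) :
    Pool.Agent.N20.EW.FixW (MulAut.conjNormal k : MulAut M) R (fun x => ψ (ne M R x)) ↔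
      ∃ g ∈ M, g * k ∈ Subgroup.normalizer (im M R : Set K) ∧ CjF (g * k) ψ ψ := by
  constructor
  · rintro ⟨g, h1, h2⟩
    refine ⟨g, g.2, norm_gen.2 fun x => ?_, fun x y hxy => ?_⟩
    · rw [h1 x, ← mem_im, conj_eq]
    · refine h2 ((ne M R).symm x) ((ne M R).symm y) (Subtype.ext ?_)
      rw [conj_eq]
      exact hxy
  · rintro ⟨g, hg, h1, h2⟩
    refine ⟨⟨g, hg⟩, fun x => ?_, fun x y hxy => ?_⟩
    · rw [norm_gen.1 h1 x, ← mem_im, conj_eq]
    · refine h2 (ne M R x) (ne M R y) ?_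
      have h3 := congrArg Subtype.val hxy
      rw [conj_eq] at h3
      exact h3

theorem t_card (p : ℕ) (red : integralClosure ℤ ℂ →+* F) (M : Subgroup K) [M.Normal]
    (R : Subgroup M) {z : K → F} (hz : InZ M z) (c : F) (k : K) :
    Nat.card {ξ : Subgroup.normalizer (R : Set M) → ℂ //
        IsWt p (R.subgroupOf (Subgroup.normalizer (R : Set M))) ξ ∧
        centralValue red ξ (fun x => z x) = c ∧
        Pool.Agent.N20.EW.FixW (MulAut.conjNormal k : MulAut M) R ξ} =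
      Nat.card {ξ : WtJ p red (M ⊓ Subgroup.normalizer (im M R : Set K)) (im M R) z c //
        ∃ g ∈ M, g * k ∈ Subgroup.normalizer (im M R : Set K) ∧ CjF (g * k) ξ.1 ξ.1} := by
  refine Nat.card_congr
    { toFun := fun ξ => ⟨⟨fun x => ξ.1 ((ne M R).symm x), ?_, ?_⟩, ?_⟩
      invFun := fun ξ => ⟨fun x => ξ.1.1 (ne M R x), ?_, ?_, ?_⟩
      left_inv := fun _ => rfl
      right_inv := fun _ => rfl }
  · exact (t_wt M R fun x => ξ.1 ((ne M R).symm x)).1 ξ.2.1
  · have h1 := (t_wt M R fun x => ξ.1 ((ne M R).symm x)).1 ξ.2.1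
    exact (t_cv red M R hz _ h1.irr).symm.trans ξ.2.2.1
  · exact (t_fix M R k fun x => ξ.1 ((ne M R).symm x)).1 ξ.2.2.2
  · exact (t_wt M R ξ.1.1).2 ξ.1.2.1
  · exact (t_cv red M R hz _ ξ.1.2.1.irr).trans ξ.1.2.2
  · exact (t_fix M R k ξ.1.1).2 ξ.2

theorem x_card (M : Subgroup K) [M.Normal] (z : K → F) (c : F) (k : K) :
    Nat.card {φ : M → F // IsIrrTrace φ ∧
        (∀ x : M, ∑ᶠ g : M, z g * φ (g * x) = c * φ x) ∧
        ∀ x : M, φ ((MulAut.conjNormal k : MulAut M) x) = φ x} =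
      Nat.card {φ : TrM M M z c // CjF k φ.1 φ.1} := by
  refine Nat.card_congr
    { toFun := fun φ => ⟨⟨φ.1, φ.2.1, ?_, φ.2.2.1⟩, ?_⟩
      invFun := fun φ => ⟨φ.1.1, φ.1.2.1, φ.1.2.2.2, ?_⟩
      left_inv := fun _ => rfl
      right_inv := fun _ => rfl }
  · intro m hm x y hxy
    have h1 : y = (⟨m, hm⟩ : M) * x * (⟨m, hm⟩ : M)⁻¹ := Subtype.ext hxy
    rw [h1]
    exact B77.irr_conj φ.2.1 ⟨m, hm⟩ x
  · intro x y hxy
    have h1 : y = (MulAut.conjNormal k : MulAut M) x := Subtype.ext (by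
      rw [MulAut.conjNormal_apply]
      exact hxy)
    rw [h1]
    exact φ.2.2.2 x
  · intro x
    exact φ.2 x _ (MulAut.conjNormal_apply k x)

end trans

/-- BASB: from automorphisms to orbits -/
theorem BASB : S_BASB := by
  intro p _ F _ _ _ red hA K _ _ M _ z hz c
  have i1 : Fintype K := Fintype.ofFinite K
  have i2 : Fintype (Subgroup K) := Fintype.ofFinite _
  have i3 : Fintype (Subgroup M) := Fintype.ofFinite _
  have i4 : Finite {φ : M → F // IsIrrTrace φ} := (Pool.Agent.Y914.NV.irr F M).1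
  have i5 : Finite (TrM M M z c) :=
    Finite.of_injective (fun φ : TrM M M z c => (⟨φ.1, φ.2.1⟩ : {φ : M → F // IsIrrTrace φ}))
      (fun a b h => Subtype.ext (congrArg (fun t => t.1) h))
  have i6 : ∀ J Q : Subgroup K, Finite (WtJ p red J Q z c) := by
    intro J Q
    have hX := Pool.Agent.Y171.NV.irr_fin J
    exact Finite.of_injective (fun ξ : WtJ p red J Q z c =>
      (⟨ξ.1, ξ.2.1.irr⟩ : {χ : J → ℂ // IsIrreducibleCharacter χ}))
      (fun a b h => Subtype.ext (congrArg (fun t => t.1) h))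
  -- the two sides
  have hL : LsK M M ⊤ z c = ((Nat.card (⊤ : Subgroup K) * OrbL M M ⊤ z c : ℕ) : ℤ) := by
    unfold LsK
    rw [inf_top_eq, sup_idem, if_pos rfl, Nat.cast_mul]
  have hW : WsK p red M M ⊤ z c = ((∑ Q : Subgroup K, if IsPGroup p Q ∧ M ⊔ Q = M then
      Nat.card (Subgroup.normalizer (Q : Set K)) *
        OrbW p red M (Subgroup.normalizer (Q : Set K)) Q z c else 0 : ℕ) : ℤ) := by
    unfold WsK
    rw [finsum_eq_sum_of_fintype, Nat.cast_sum]
    refine Finset.sum_congr rfl fun Q _ => ?_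
    rw [top_inf_eq]
    by_cases hQ : IsPGroup p Q ∧ M ⊔ Q = M
    · rw [if_pos hQ, if_pos ⟨hQ.1, le_top, hQ.2⟩, Nat.cast_mul]
    · rw [if_neg hQ, if_neg fun h => hQ ⟨h.1, h.2.2⟩, Nat.cast_zero]
  rw [hL, hW]
  refine congrArg (fun n : ℕ => (n : ℤ)) ?_
  have hM : 0 < Nat.card M := Nat.card_pos
  refine Nat.eq_of_mul_eq_mul_left hM ?_
  -- the left-hand side
  have h1 : Nat.card M * (Nat.card (⊤ : Subgroup K) * OrbL M M ⊤ z c) =
      ∑ k : K, Nat.card M * Nat.card {φ : TrM M M z c // CjF k φ.1 φ.1} := by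
    rw [orbL_eq M hz c, ← Finset.mul_sum]
    refine congrArg (fun n : ℕ => Nat.card M * n) ?_
    rw [← Nat.card_sigma]
    exact Nat.card_congr
      { toFun := fun s => ⟨s.1.1, s.2⟩
        invFun := fun s => ⟨⟨s.1, Subgroup.mem_top _⟩, s.2⟩
        left_inv := fun _ => rfl
        right_inv := fun _ => rfl }
  -- the equality for the conjugation by `k`
  have h2 : ∀ k : K, Nat.card M * Nat.card {φ : TrM M M z c // CjF k φ.1 φ.1} =
      ∑ Q : Subgroup K, if IsPGroup p Q ∧ M ⊔ Q = M then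
        Nat.card ↥(M ⊓ Subgroup.normalizer (Q : Set K)) *
        Nat.card {ξ : WtJ p red (M ⊓ Subgroup.normalizer (Q : Set K)) Q z c //
          ∃ g ∈ M, g * k ∈ Subgroup.normalizer (Q : Set K) ∧ CjF (g * k) ξ.1 ξ.1} else 0 := by
    intro k
    have h3 := hA M (MulAut.conjNormal k : MulAut M) (fun x => z x) (fun g x => hz.conj g x)
      (fun x => by
        have h4 : (((MulAut.conjNormal k : MulAut M) x : M) : K) = k * x * k⁻¹ :=
          MulAut.conjNormal_apply k x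
        change z ((MulAut.conjNormal k : MulAut M) x : M) = z x
        rw [h4, hz.conj]) c
    rw [← x_card M z c k]
    refine h3.trans ?_
    rw [finsum_eq_sum_of_fintype]
    refine Fintype.sum_of_injective (fun R : Subgroup M => im M R)
      (Subgroup.map_injective M.subtype_injective) _ _ ?_ ?_
    · intro Q hQ
      refine if_neg fun h => hQ ⟨Q.subgroupOf M, ?_⟩
      exact Subgroup.map_subgroupOf_eq_of_le (sup_eq_left.1 h.2)
    · intro R
      have h4 : IsPGroup p (im M R) ↔ IsPGroup p R := by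
        constructor
        · intro h
          have h5 := h.comap_of_injective M.subtype M.subtype_injective
          rwa [Subgroup.comap_map_eq_self_of_injective M.subtype_injective] at h5
        · intro h
          exact h.map M.subtype
      by_cases hR : IsPGroup p R
      · rw [if_pos hR, if_pos ⟨h4.2 hR, sup_eq_left.2 (im_le M R)⟩,
          Nat.card_congr (ne M R).toEquiv]
        exact congrArg _ (t_card p red M R hz c k)
      · rw [if_neg hR, if_neg fun h => hR (h4.1 h.1)]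
  rw [h1, Finset.sum_congr rfl fun k _ => h2 k, Finset.sum_comm, Finset.mul_sum]
  refine Finset.sum_congr rfl fun Q _ => ?_
  by_cases hQ : IsPGroup p Q ∧ M ⊔ Q = M
  · rw [if_pos hQ, Finset.sum_congr rfl fun k _ => if_pos hQ, orbW_eq p red M Q hz c]
    refine count M (Subgroup.normalizer (Q : Set K))
      (fun k (ξ : WtJ p red (M ⊓ Subgroup.normalizer (Q : Set K)) Q z c) => CjF k ξ.1 ξ.1) ?_
    intro m hm k hk ξ hξ
    exact cj_mul (nz_inf M _ hk) hξ
      (cj_cls (fun g x => Pool.Agent.Y624.NV.irr_class ξ.2.1.irr g x) hm)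
  · rw [if_neg hQ, Finset.sum_congr rfl fun k _ => if_neg hQ, Finset.sum_const_zero, mul_zero]

end Pool.Agent.N301.ENBASB
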