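import Pool.Agent.N20.EW.Stm2
import Pool.Agent.R674.KB.Dz
import Pool.Agent.N323.AEZE
import Pool.Agent.N691.AECV
import Pool.Agent.Y930.NV.Cen

/-!
# From `(Q, θ)` to a character of defect zero (project EW, part D2)
-/

set_option autoImplicit false
set_option linter.unusedSectionVars false

open scoped Classical BigOperators

noncomputable section

namespace Pool.Agent.N301.EW

open Pool.Agent.Y63.NV
open Pool.Agent.Y63.KR
open Pool.Agent.N20.EW
open Pool.Agent.N20.AE (S_UP)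
open Pool.Agent.Y930.NV (R ind centralValue_eq irr_inflate inf irr_Cf)
open Pool.Agent.Y925.NV (md)
open Pool.Agent.Y63.AWC (IsIrreducibleCharacter)
open Pool.Agent.N323.AEZE (al i_al al_symm_eq)

section proj

variable {G K : Type} [Group G] [Group K] (i : G →* K) (hi : Function.Injective i)
  (hn : i.range.Normal) (Q : Subgroup K) (hQ : Q ⊓ i.range = ⊥) (C : Subgroup G)
  (hC : ∀ x, x ∈ C ↔ ∀ q ∈ Q, q * i x = i x * q)

include hi hn hQ hC

/-- elements of the normaliser of `Q` -/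
theorem norm_dec (hS : i.range ⊔ Q = ⊤) (n : K)
    (hnQ : n ∈ Subgroup.normalizer (Q : Set K)) : ∃ c : C, (i c)⁻¹ * n ∈ Q := by
  have h1 : n ∈ ((i.range ⊔ Q : Subgroup K) : Set K) := by
    rw [hS]
    trivial
  rw [Subgroup.normal_mul] at h1
  obtain ⟨a, ⟨g, rfl⟩, q, hq, rfl⟩ := h1
  have hgN : i g ∈ Subgroup.normalizer (Q : Set K) := by
    have h2 : q ∈ Subgroup.normalizer (Q : Set K) := Subgroup.le_normalizer hq
    have h3 := mul_mem hnQ (inv_mem h2)
    simpa using h3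
  have hg : g ∈ C := by
    rw [hC]
    intro q' hq'
    have h4 : i g * q' * (i g)⁻¹ ∈ Q := (Subgroup.mem_normalizer_iff.1 hgN q').1 hq'
    have h5 : q'⁻¹ * (i g * q' * (i g)⁻¹) ∈ Q ⊓ i.range := by
      refine ⟨Q.mul_mem (Q.inv_mem hq') h4, ?_⟩
      have h6 : q'⁻¹ * i g * q'⁻¹⁻¹ ∈ i.range := hn.conj_mem _ ⟨g, rfl⟩ _
      have h7 : q'⁻¹ * (i g * q' * (i g)⁻¹) = (q'⁻¹ * i g * q'⁻¹⁻¹) * (i g)⁻¹ := by group
      rw [h7]
      exact i.range.mul_mem h6 (i.range.inv_mem ⟨g, rfl⟩)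
    rw [hQ, Subgroup.mem_bot] at h5
    have h8 : i g * q' * (i g)⁻¹ = q' := by
      rw [inv_mul_eq_one] at h5
      exact h5.symm
    calc q' * i g = (i g * q' * (i g)⁻¹) * i g := by rw [h8]
      _ = i g * q' := by group
  refine ⟨⟨g, hg⟩, ?_⟩
  change (i g)⁻¹ * (i g * q) ∈ Q
  rw [inv_mul_cancel_left]
  exact hq

theorem dec_unique (n : K) (c c' : C) (h : (i c)⁻¹ * n ∈ Q) (h' : (i c')⁻¹ * n ∈ Q) : c = c' := by
  have h1 : (i c)⁻¹ * i c' ∈ Q ⊓ i.range := by
    refine ⟨?_, i.range.mul_mem (i.range.inv_mem ⟨_, rfl⟩) ⟨_, rfl⟩⟩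
    have h2 := Q.mul_mem h (Q.inv_mem h')
    have h3 : (i c)⁻¹ * n * ((i c')⁻¹ * n)⁻¹ = (i c)⁻¹ * i c' := by group
    rwa [h3] at h2
  rw [hQ, Subgroup.mem_bot, inv_mul_eq_one] at h1
  exact Subtype.ext (hi h1)

theorem mem_norm (c : C) : i c ∈ Subgroup.normalizer (Q : Set K) := by
  rw [Subgroup.mem_normalizer_iff]
  have key : ∀ c : C, ∀ h ∈ Q, i c * h * (i c)⁻¹ = h := by
    intro c h hh
    have h1 := (hC c).1 c.2 h hh
    rw [← h1]
    group
  intro h
  constructor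
  · intro hh
    have h2 := key c h hh
    change i c * h * (i c)⁻¹ ∈ Q
    rw [h2]
    exact hh
  · intro hh
    have h2 := key c⁻¹ _ hh
    have h3 : i (c⁻¹ : C) * (i c * h * (i c)⁻¹) * (i (c⁻¹ : C))⁻¹ = h := by
      rw [Subgroup.coe_inv, map_inv]
      group
    rw [h3] at h2
    change h ∈ Q
    rw [h2]
    exact hh

/-- the projection of the normaliser of `Q` to `C` -/
theorem exists_pr (hS : i.range ⊔ Q = ⊤) : ∃ π : Subgroup.normalizer (Q : Set K) →* C,
    Function.Surjective π ∧ (∀ n : Subgroup.normalizer (Q : Set K), (i (π n))⁻¹ * (n : K) ∈ Q) ∧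
    ∀ (n : Subgroup.normalizer (Q : Set K)) (c : C), (i c)⁻¹ * (n : K) ∈ Q → π n = c := by
  have hex : ∀ n : Subgroup.normalizer (Q : Set K), ∃ c : C, (i c)⁻¹ * (n : K) ∈ Q :=
    fun n => norm_dec i hi hn Q hQ C hC hS n n.2
  choose f hf using hex
  have hu : ∀ (n : Subgroup.normalizer (Q : Set K)) (c : C), (i c)⁻¹ * (n : K) ∈ Q → f n = c :=
    fun n c h => dec_unique i hi hn Q hQ C hC n _ _ (hf n) h
  refine ⟨MonoidHom.mk' f ?_, ?_, hf, hu⟩
  · intro a b
    refine hu _ _ ?_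
    have h1 := (hC (f b)).1 (f b).2 _ (hf a)
    have h2 : (i ((f a * f b : C) : G))⁻¹ * ((a * b : Subgroup.normalizer (Q : Set K)) : K) =
        ((i (f a))⁻¹ * (a : K)) * ((i (f b))⁻¹ * (b : K)) := by
      rw [Subgroup.coe_mul, Subgroup.coe_mul, map_mul, mul_inv_rev]
      have h3 : (i (f b : G))⁻¹ * ((i (f a : G))⁻¹ * (a : K)) =
          ((i (f a : G))⁻¹ * (a : K)) * (i (f b : G))⁻¹ := by
        rw [inv_mul_eq_iff_eq_mul, ← mul_assoc, ← h1, mul_assoc, mul_inv_cancel, mul_one]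
      calc _ = ((i (f b : G))⁻¹ * ((i (f a : G))⁻¹ * (a : K))) * b := by group
        _ = _ := by
          rw [h3]
          group
    rw [h2]
    exact Q.mul_mem (hf a) (hf b)
  · intro c
    refine ⟨⟨i c, mem_norm i hi hn Q hQ C hC c⟩, ?_⟩
    refine hu _ _ ?_
    change (i c)⁻¹ * i c ∈ Q
    rw [inv_mul_cancel]
    exact one_mem Q

end proj

section blk

variable {F : Type} [Field F] [IsAlgClosed F] (red : integralClosure ℤ ℂ →+* F)

/-- the block of `G`, for `K = G Q` -/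
theorem blkA (p : ℕ) [Fact p.Prime] [CharP F p] (h1 : S_UP) (h2 : S_EXT) {G K : Type} [Group G]
    [Group K] [Finite G] [Finite K] (i : G →* K) (hi : Function.Injective i)
    (hn : i.range.Normal) (Q : Subgroup K) (hQp : IsPGroup p Q) (hQ : Q ⊓ i.range = ⊥)
    (C : Subgroup G) (hC : ∀ x, x ∈ C ↔ ∀ q ∈ Q, q * i x = i x * q) (hS : i.range ⊔ Q = ⊤)
    (θ : C → ℂ) (hθ : IsIrreducibleCharacter θ) :
    ∃ B : (G → F) → F, IsBlock B ∧ ∀ f : G → F, IsClassFun f →
      (∀ q ∈ Q, ∀ x y : G, i y = q * i x * q⁻¹ → f y = f x) →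
      B f = centralValue red θ (fun y : C => f y) := by
  obtain ⟨π, hπs, hπ, hπu⟩ := exists_pr i hi hn Q hQ C hC hS
  have hχ : IsIrreducibleCharacter (fun n : Subgroup.normalizer (Q : Set K) => θ (π n)) :=
    irr_inflate π hπs hθ
  obtain ⟨_, hb⟩ := h1 p F red K Q hQp _ hχ
  obtain ⟨B, hB, hBz⟩ := h2 F G K i hi hn _ hb
  refine ⟨B, hB, fun f hf hfQ => ?_⟩
  obtain ⟨z, hz1, hz0⟩ : ∃ z : K → F, (∀ x, z (i x) = f x) ∧ ∀ k, k ∉ i.range → z k = 0 := by
    refine ⟨fun k => if h : ∃ x, i x = k then f h.choose else 0, fun x => ?_, fun k hk => ?_⟩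
    · have h : ∃ x', i x' = i x := ⟨x, rfl⟩
      beta_reduce
      rw [dif_pos h, hi h.choose_spec]
    · beta_reduce
      rw [dif_neg]
      rintro ⟨x, hx⟩
      exact hk ⟨x, hx⟩
  have hinv : ∀ (k : K) (x : G), f (al i hi hn k x) = f x := by
    intro k x
    have h3 : k ∈ ((i.range ⊔ Q : Subgroup K) : Set K) := by
      rw [hS]
      trivial
    rw [Subgroup.normal_mul] at h3
    obtain ⟨a, ⟨g, rfl⟩, q, hq, rfl⟩ := h3
    have h4 : al i hi hn (i g * q) x = g * al i hi hn q x * g⁻¹ := by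
      apply hi
      rw [i_al, map_mul, map_mul, map_inv, i_al]
      group
    change f (al i hi hn (i g * q) x) = f x
    rw [h4, hf]
    exact hfQ q hq x _ (i_al i hi hn q x)
  have hzc : IsClassFun z := by
    intro g k
    by_cases hk : k ∈ i.range
    · obtain ⟨x, rfl⟩ := hk
      rw [← i_al i hi hn, hz1, hz1, hinv]
    · rw [hz0 k hk, hz0]
      intro h
      apply hk
      have h5 := hn.conj_mem _ h g⁻¹
      have h6 : g⁻¹ * (g * k * g⁻¹) * g⁻¹⁻¹ = k := by group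
      rwa [h6] at h5
  have e1 := hBz z hzc hz0
  have e2 := inf F red (Subgroup.normalizer (Q : Set K)) C π θ (fun n => z n) hπs hθ
    (fun g x => hzc g x)
  have e4 : (fun x => z (i x)) = f := funext hz1
  rw [e4] at e1
  rw [e1]
  refine e2.trans (congrArg (centralValue red θ) (funext fun y => ?_))
  have hmem := mem_norm i hi hn Q hQ C hC y
  rw [finsum_eq_single _ (⟨i y, hmem⟩ : Subgroup.normalizer (Q : Set K))]
  · have h7 : π ⟨i y, hmem⟩ = y := by
      refine hπu _ _ ?_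
      change (i y)⁻¹ * i y ∈ Q
      rw [inv_mul_cancel]
      exact one_mem Q
    rw [if_pos h7]
    exact hz1 y
  · intro x hx
    by_cases h8 : π x = y
    · rw [if_pos h8]
      apply hz0
      intro hxr
      apply hx
      apply Subtype.ext
      change (x : K) = i y
      have h9 := hπ x
      rw [h8] at h9
      have h10 : (i y)⁻¹ * (x : K) ∈ Q ⊓ i.range :=
        ⟨h9, i.range.mul_mem (i.range.inv_mem ⟨_, rfl⟩) hxr⟩
      rw [hQ, Subgroup.mem_bot, inv_mul_eq_one] at h10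
      exact h10.symm
    · rw [if_neg h8]

/-- the block of `G` -/
theorem blkB (p : ℕ) [Fact p.Prime] [CharP F p] (h1 : S_UP) (h2 : S_EXT) {G K : Type} [Group G]
    [Group K] [Finite G] [Finite K] (i : G →* K) (hi : Function.Injective i)
    (hn : i.range.Normal) (Q : Subgroup K) (hQp : IsPGroup p Q) (hQ : Q ⊓ i.range = ⊥)
    (C : Subgroup G) (hC : ∀ x, x ∈ C ↔ ∀ q ∈ Q, q * i x = i x * q)
    (θ : C → ℂ) (hθ : IsIrreducibleCharacter θ) :
    ∃ B : (G → F) → F, IsBlock B ∧ ∀ f : G → F, IsClassFun f →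
      (∀ q ∈ Q, ∀ x y : G, i y = q * i x * q⁻¹ → f y = f x) →
      B f = centralValue red θ (fun y : C => f y) := by
  obtain ⟨S, hSdef⟩ : ∃ S : Subgroup K, S = i.range ⊔ Q := ⟨_, rfl⟩
  have hGS : ∀ x, i x ∈ S := fun x => by
    rw [hSdef]
    exact Subgroup.mem_sup_left ⟨x, rfl⟩
  have hQS : Q ≤ S := by
    rw [hSdef]
    exact le_sup_right
  let i' : G →* S := i.codRestrict S hGS
  have hi'v : ∀ x, ((i' x : S) : K) = i x := fun x => rfl
  have hi' : Function.Injective i' := fun x y h => hi (congrArg Subtype.val h)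
  have hn' : i'.range.Normal := by
    constructor
    rintro _ ⟨x, rfl⟩ g
    obtain ⟨y, hy⟩ := hn.conj_mem _ ⟨x, rfl⟩ (g : K)
    exact ⟨y, Subtype.ext hy⟩
  have hQ' : Q.subgroupOf S ⊓ i'.range = ⊥ := by
    rw [eq_bot_iff]
    rintro x ⟨hx1, y, rfl⟩
    have h3 : i y ∈ Q ⊓ i.range := ⟨Subgroup.mem_subgroupOf.1 hx1, y, rfl⟩
    rw [hQ, Subgroup.mem_bot] at h3
    rw [Subgroup.mem_bot]
    exact Subtype.ext h3
  have hC' : ∀ x, x ∈ C ↔ ∀ q ∈ Q.subgroupOf S, q * i' x = i' x * q := by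
    intro x
    rw [hC]
    constructor
    · intro h q hq
      exact Subtype.ext (h q (Subgroup.mem_subgroupOf.1 hq))
    · intro h q hq
      exact congrArg Subtype.val (h ⟨q, hQS hq⟩ (Subgroup.mem_subgroupOf.2 hq))
  have hS' : i'.range ⊔ Q.subgroupOf S = ⊤ := by
    rw [eq_top_iff]
    rintro s _
    have h3 : (s : K) ∈ ((i.range ⊔ Q : Subgroup K) : Set K) := by
      rw [← hSdef]
      exact s.2
    rw [Subgroup.normal_mul] at h3
    obtain ⟨a, ⟨g, rfl⟩, q, hq, hs⟩ := h3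
    have h4 : s = i' g * ⟨q, hQS hq⟩ := Subtype.ext hs.symm
    rw [h4]
    exact mul_mem (Subgroup.mem_sup_left ⟨g, rfl⟩)
      (Subgroup.mem_sup_right (Subgroup.mem_subgroupOf.2 hq))
  obtain ⟨B, hB, hBf⟩ := blkA red p h1 h2 i' hi' hn' (Q.subgroupOf S) hQp.comap_subtype hQ' C hC'
    hS' θ hθ
  exact ⟨B, hB, fun f hf hfQ => hBf f hf fun q hq x y hxy =>
    hfQ q (Subgroup.mem_subgroupOf.1 hq) x y (congrArg Subtype.val hxy)⟩

end blk

section inv

variable {F : Type} [Field F] (red : integralClosure ℤ ℂ →+* F)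

/-- the character is invariant under `Q` -/
theorem invQ (p : ℕ) [Fact p.Prime] [CharP F p] {G K : Type} [Group G] [Group K] [Finite G]
    [Finite K] (i : G →* K) (hi : Function.Injective i) (hn : i.range.Normal) (Q : Subgroup K)
    (hQp : IsPGroup p Q) (ψ : G → ℂ) (hψ : IsWt p (⊥ : Subgroup G) ψ) (θ : CQ i Q → ℂ)
    (hR : Rel red i Q ψ θ) : ∀ q ∈ Q, ∀ x y : G, i y = q * i x * q⁻¹ → ψ y = ψ x := by
  have : Fintype G := Fintype.ofFinite G
  have : Fintype Q := Fintype.ofFinite Q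
  have hal1 : ∀ x, (al i hi hn (1 : K)).symm x = x := fun x => by
    apply al_symm_eq
    group
  have halm : ∀ (a b : K) x, (al i hi hn (a * b)).symm x =
      (al i hi hn b).symm ((al i hi hn a).symm x) := by
    intro a b x
    apply al_symm_eq
    obtain ⟨y, rfl⟩ := (al i hi hn a).surjective x
    rw [MulEquiv.symm_apply_apply]
    obtain ⟨w, rfl⟩ := (al i hi hn b).surjective y
    rw [MulEquiv.symm_apply_apply, i_al, i_al]
    group
  let act : MulAction Q (G → ℂ) :=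
    { smul := fun q φ x => φ ((al i hi hn (q : K)).symm x)
      one_smul := fun φ => funext fun x => by
        change φ ((al i hi hn ((1 : Q) : K)).symm x) = φ x
        rw [Subgroup.coe_one, hal1]
      mul_smul := fun a b φ => funext fun x => by
        change φ ((al i hi hn ((a * b : Q) : K)).symm x) =
          φ ((al i hi hn (b : K)).symm ((al i hi hn (a : K)).symm x))
        rw [Subgroup.coe_mul, halm] }
  have hsm : ∀ (q : Q) (φ : G → ℂ) (x : G), (q • φ) x = φ ((al i hi hn (q : K)).symm x) :=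
    fun q φ x => rfl
  have hfin : (MulAction.orbit Q ψ).Finite := Set.finite_range _
  have : Finite (MulAction.orbit Q ψ) := hfin
  obtain ⟨m, hm⟩ := hQp.card_orbit ψ
  -- the sum over the orbit
  have hirr : ∀ φ ∈ hfin.toFinset, IsIrreducibleCharacter φ := by
    intro φ hφ
    rw [Set.Finite.mem_toFinset] at hφ
    obtain ⟨q, rfl⟩ := hφ
    exact Pool.Agent.Y63.AWC.irr_comp (al i hi hn (q : K)).symm hψ.irr
  obtain ⟨E, hE⟩ : ∃ E : G → F, E = fun x => ∑ φ ∈ hfin.toFinset, redC red (φ x⁻¹) := ⟨_, rfl⟩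
  have hEc : IsClassFun E := by
    intro g x
    rw [hE]
    refine Finset.sum_congr rfl fun φ hφ => ?_
    have e : (g * x * g⁻¹)⁻¹ = g * x⁻¹ * g⁻¹ := by group
    rw [e, irr_Cf (hirr φ hφ)]
  have hEQ : ∀ q ∈ Q, ∀ x y : G, i y = q * i x * q⁻¹ → E y = E x := by
    intro q hq x y hxy
    have hx : (al i hi hn q).symm y = x := al_symm_eq i hi hn hxy
    rw [hE]
    change ∑ φ ∈ hfin.toFinset, redC red (φ y⁻¹) = ∑ φ ∈ hfin.toFinset, redC red (φ x⁻¹)
    refine Finset.sum_nbij' (fun φ => (⟨q, hq⟩ : Q)⁻¹ • φ) (fun φ => (⟨q, hq⟩ : Q) • φ)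
      ?_ ?_ ?_ ?_ ?_
    · intro φ hφ
      rw [Set.Finite.mem_toFinset] at hφ ⊢
      obtain ⟨q', rfl⟩ := hφ
      exact ⟨_, mul_smul _ _ _⟩
    · intro φ hφ
      rw [Set.Finite.mem_toFinset] at hφ ⊢
      obtain ⟨q', rfl⟩ := hφ
      exact ⟨_, mul_smul _ _ _⟩
    · intro φ _
      exact smul_inv_smul _ _
    · intro φ _
      exact inv_smul_smul _ _
    · intro φ _
      congr 1
      have h1 : φ = (⟨q, hq⟩ : Q) • ((⟨q, hq⟩ : Q)⁻¹ • φ) := (smul_inv_smul _ _).symm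
      conv_lhs => rw [h1]
      rw [hsm]
      rw [map_inv, hx]
  -- the central value of the sum
  have h1 : centralValue red ψ E = (md ψ : F) := by
    rw [centralValue_eq red hψ.irr]
    have h2 : ∀ C : ConjClasses G, E C.out * R red ψ (ind ℤ C) =
        ∑ φ ∈ hfin.toFinset, redC red (φ C.out⁻¹) * R red ψ (ind ℤ C) := by
      intro C
      rw [hE, Finset.sum_mul]
    simp only [h2]
    rw [Finset.sum_comm]
    refine (Finset.sum_congr rfl fun φ hφ =>
      Pool.Agent.R674.KB.sum_red red hψ.irr (hirr φ hφ)).trans ?_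
    rw [Finset.sum_ite_eq, if_pos]
    rw [Set.Finite.mem_toFinset]
    exact MulAction.mem_orbit_self ψ
  have h4 := hR E hEc hEQ
  rw [h1] at h4
  have hmd : (md ψ : F) ≠ 0 := Pool.Agent.R674.KB.wt_md hψ
  -- the values of the sum on the centraliser
  have h5 : ∀ x : CQ i Q, E x = (p ^ m : ℕ) * redC red (ψ (x : G)⁻¹) := by
    intro x
    rw [hE]
    change ∑ φ ∈ hfin.toFinset, redC red (φ (x : G)⁻¹) = _
    have h6 : ∀ φ ∈ hfin.toFinset, redC red (φ (x : G)⁻¹) = redC red (ψ (x : G)⁻¹) := by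
      intro φ hφ
      rw [Set.Finite.mem_toFinset] at hφ
      obtain ⟨q, rfl⟩ := hφ
      congr 1
      change ψ ((al i hi hn (q : K)).symm (x : G)⁻¹) = ψ (x : G)⁻¹
      congr 1
      apply al_symm_eq
      have h7 : i x ∈ Subgroup.centralizer (Q : Set K) := x.2
      have h8 := Subgroup.mem_centralizer_iff.1 h7 q q.2
      rw [map_inv, eq_mul_inv_iff_mul_eq]
      have h9 : (q : K) * (i x)⁻¹ = (i x)⁻¹ * q := by
        rw [eq_inv_mul_iff_mul_eq, ← mul_assoc, ← h8, mul_assoc, mul_inv_cancel, mul_one]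
      exact h9.symm
    rw [Finset.sum_congr rfl h6, Finset.sum_const, nsmul_eq_mul]
    congr 2
    rw [← hm, Nat.card_eq_card_finite_toFinset hfin]
  have hm0 : m = 0 := by
    by_contra hne
    apply hmd
    rw [h4]
    have h10 : ((p ^ m : ℕ) : F) = 0 := by
      rw [Nat.cast_pow, CharP.cast_eq_zero, zero_pow hne]
    unfold centralValue
    refine finsum_eq_zero_of_forall_eq_zero fun c => ?_
    beta_reduce
    rw [h5, h10, zero_mul, zero_mul]
  rw [hm0, pow_zero] at hm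
  -- the orbit is a point
  have hss : Subsingleton (MulAction.orbit Q ψ) := (Nat.card_eq_one_iff_unique.1 hm).1
  intro q hq x y hxy
  have hx : (al i hi hn q).symm y = x := al_symm_eq i hi hn hxy
  have h11 : (⟨(⟨q, hq⟩ : Q) • ψ, MulAction.mem_orbit ψ _⟩ : MulAction.orbit Q ψ) =
      ⟨ψ, MulAction.mem_orbit_self ψ⟩ := Subsingleton.elim _ _
  have h12 : (⟨q, hq⟩ : Q) • ψ = ψ := congrArg Subtype.val h11
  have h13 := congrFun h12 y
  rw [hsm] at h13
  rw [← hx]
  exact h13.symm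

end inv

/-- **D2.** -/
theorem D2 (h1 : S_UP) (h2 : S_EXT) (h3 : S_DF) (h4 : S_SY) : S_D2 := by
  intro p _ F _ _ _ red G K _ _ _ _ i hi hn Q hQp hQ θ hθ
  have hC : ∀ x, x ∈ CQ i Q ↔ ∀ q ∈ Q, q * i x = i x * q := by
    intro x
    rw [Subgroup.mem_comap, Subgroup.mem_centralizer_iff]
    rfl
  obtain ⟨B, hB, hBf⟩ := blkB red p h1 h2 i hi hn Q hQp hQ (CQ i Q) hC θ hθ.irr
  obtain ⟨_, y, hy1, _, _, _, hy2⟩ := (h3 p F red (CQ i Q)).1 θ hθ
  have hyp : ¬ p ∣ Nat.card ↥(Subgroup.centralizer {y}) := by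
    rw [Subgroup.card_bot, Nat.factorization_one, Finsupp.zero_apply] at hy2
    intro hdvd
    have := Nat.Prime.factorization_pos_of_dvd (Fact.out : p.Prime) Nat.card_pos.ne' hdvd
    omega
  obtain ⟨hsy1, _, hsy3⟩ := h4 p G K i hi hn Q hQp hQ y hyp
  -- the indicator function of the class
  obtain ⟨f₀, hf₀⟩ : ∃ f₀ : G → F, f₀ = fun x =>
      if ∃ k ∈ i.range ⊔ Q, i x = k * i y * k⁻¹ then 1 else 0 := ⟨_, rfl⟩
  have hf1 : ∀ s ∈ i.range ⊔ Q, ∀ x x' : G, i x' = s * i x * s⁻¹ → f₀ x' = f₀ x := by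
    intro s hs x x' hxx
    have hiff : (∃ k ∈ i.range ⊔ Q, i x' = k * i y * k⁻¹) ↔
        ∃ k ∈ i.range ⊔ Q, i x = k * i y * k⁻¹ := by
      constructor
      · rintro ⟨k, hk, hk2⟩
        refine ⟨s⁻¹ * k, (i.range ⊔ Q).mul_mem ((i.range ⊔ Q).inv_mem hs) hk, ?_⟩
        rw [hxx] at hk2
        have h5 : i x = s⁻¹ * (s * i x * s⁻¹) * s := by group
        rw [h5, hk2]
        group
      · rintro ⟨k, hk, hk2⟩
        refine ⟨s * k, (i.range ⊔ Q).mul_mem hs hk, ?_⟩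
        rw [hxx, hk2]
        group
    rw [hf₀]
    change (if ∃ k ∈ i.range ⊔ Q, i x' = k * i y * k⁻¹ then (1 : F) else 0) =
      if ∃ k ∈ i.range ⊔ Q, i x = k * i y * k⁻¹ then (1 : F) else 0
    by_cases h : ∃ k ∈ i.range ⊔ Q, i x = k * i y * k⁻¹
    · rw [if_pos h, if_pos (hiff.2 h)]
    · rw [if_neg h, if_neg (fun h' => h (hiff.1 h'))]
  have hfc : IsClassFun f₀ := fun g x =>
    hf1 (i g) (Subgroup.mem_sup_left ⟨g, rfl⟩) x _ (by rw [map_mul, map_mul, map_inv])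
  have hfQ : ∀ q ∈ Q, ∀ x x' : G, i x' = q * i x * q⁻¹ → f₀ x' = f₀ x := fun q hq =>
    hf1 q (Subgroup.mem_sup_right hq)
  have hBf0 : B f₀ ≠ 0 := by
    rw [hBf f₀ hfc hfQ]
    have h5 : (fun y' : CQ i Q => f₀ y') = fun y' => if IsConj y y' then 1 else 0 := by
      funext y'
      rw [hf₀]
      change (if ∃ k ∈ i.range ⊔ Q, i y' = k * i y * k⁻¹ then (1 : F) else 0) = _
      by_cases h : IsConj y y'
      · rw [if_pos h, if_pos]
        obtain ⟨c, hc⟩ := isConj_iff.1 h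
        refine ⟨i c, Subgroup.mem_sup_left ⟨_, rfl⟩, ?_⟩
        rw [← hc, Subgroup.coe_mul, Subgroup.coe_mul, Subgroup.coe_inv, map_mul, map_mul, map_inv]
      · rw [if_neg h, if_neg (fun h' => h (hsy3 y' h'))]
    rw [h5]
    exact hy1
  obtain ⟨x, hx1, hx2⟩ := Pool.Agent.N691.AECV.blk_exists hB f₀ hfc hBf0
  obtain ⟨k, hk, hkx⟩ : ∃ k ∈ i.range ⊔ Q, i x = k * i y * k⁻¹ := by
    by_contra h
    apply hx1
    rw [hf₀]
    exact if_neg h
  have hα : al i hi hn k (y : G) = x := by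
    apply hi
    rw [i_al, hkx]
  have hcard : Nat.card ↥(Subgroup.centralizer {(y : G)}) =
      Nat.card ↥(Subgroup.centralizer {x}) := by
    refine Nat.card_congr ((al i hi hn k).toEquiv.subtypeEquiv fun g => ?_)
    rw [Subgroup.mem_centralizer_singleton_iff, Subgroup.mem_centralizer_singleton_iff]
    change _ ↔ al i hi hn k g * x = x * al i hi hn k g
    rw [← hα, ← map_mul, ← map_mul, (al i hi hn k).injective.eq_iff]
  rw [hcard] at hsy1
  obtain ⟨ψ, hψ, hψB⟩ := (h3 p F red G).2 B hB x hx2 hsy1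
  have hRel : Rel red i Q ψ θ := fun f hf hfQ => by rw [hψB f hf, hBf f hf hfQ]
  exact ⟨ψ, hψ, hRel, invQ red p i hi hn Q hQp ψ hψ θ hRel⟩

end Pool.Agent.N301.EW
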