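import Pool.Agent.N502.FR.Stm

/-! Project FR: the pigeonhole principle. -/

set_option autoImplicit false

open Finset

namespace Pool.Agent.N301.FRPIG

open Pool.Agent.N502.FR

theorem mom_nonneg (m j : ℕ) (H : Finset ℕ) : 0 ≤ mom m j H := by
  unfold mom
  refine mul_nonneg ((even_two_mul j).pow_nonneg _) (Finset.sum_nonneg fun h _ => ?_)
  positivity

theorem N0_le (m : ℕ) : (m + 3) * 4 ^ m + 2 ≤ 2 ^ (3 * m + 3) := by
  have e : 2 ^ (3 * m + 3) = 8 * (2 ^ m * 4 ^ m) := by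
    have h4 : (4 : ℕ) ^ m = 2 ^ (2 * m) := by
      rw [pow_mul]
      norm_num
    rw [h4]
    ring
  have h1 : m + 3 ≤ 4 * 2 ^ m := by
    have h2 : m < 2 ^ m := Nat.lt_two_pow_self
    have h3 : 1 ≤ 2 ^ m := Nat.one_le_two_pow
    omega
  have h5 : (m + 3) * 4 ^ m ≤ 4 * 2 ^ m * 4 ^ m := Nat.mul_le_mul_right _ h1
  have h6 : 1 ≤ 2 ^ m * 4 ^ m := Nat.one_le_iff_ne_zero.2 (by positivity)
  rw [e]
  nlinarith

theorem close {m : ℕ} {x y : ℝ} (hx : 0 ≤ x) (hy : 0 ≤ y) (hd : |x - y| ≤ m + 3)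
    (h : ⌊(4 : ℝ) ^ m * x⌋₊ % ((m + 3) * 4 ^ m + 2) = ⌊(4 : ℝ) ^ m * y⌋₊ % ((m + 3) * 4 ^ m + 2)) :
    |x - y| ≤ (1 / 4) ^ m := by
  have h4 : (0 : ℝ) < 4 ^ m := by positivity
  have hx1 := Nat.floor_le (mul_nonneg h4.le hx)
  have hx2 := Nat.lt_floor_add_one ((4 : ℝ) ^ m * x)
  have hy1 := Nat.floor_le (mul_nonneg h4.le hy)
  have hy2 := Nat.lt_floor_add_one ((4 : ℝ) ^ m * y)
  obtain ⟨a, ha⟩ : ∃ a, a = ⌊(4 : ℝ) ^ m * x⌋₊ := ⟨_, rfl⟩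
  obtain ⟨b, hb⟩ : ∃ b, b = ⌊(4 : ℝ) ^ m * y⌋₊ := ⟨_, rfl⟩
  rw [← ha] at hx1 hx2 h
  rw [← hb] at hy1 hy2 h
  have hd4 : |(4 : ℝ) ^ m * x - 4 ^ m * y| ≤ (m + 3) * 4 ^ m := by
    rw [← mul_sub, abs_mul, abs_of_pos h4, mul_comm]
    exact mul_le_mul_of_nonneg_right hd h4.le
  have hab : a = b := by
    refine Nat.ModEq.eq_of_abs_lt (m := (m + 3) * 4 ^ m + 2) h ?_
    have hr : |(b : ℝ) - a| < (m + 3) * 4 ^ m + 2 := by
      rw [abs_le] at hd4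
      rw [abs_lt]
      constructor <;> linarith [hd4.1, hd4.2]
    have hi : ((|(b : ℤ) - a| : ℤ) : ℝ) < (((((m + 3) * 4 ^ m + 2 : ℕ) : ℤ)) : ℝ) := by
      push_cast
      exact hr
    exact_mod_cast hi
  have h5 : |(4 : ℝ) ^ m * x - 4 ^ m * y| ≤ 1 := by
    rw [abs_le]
    rw [hab] at hx1 hx2
    constructor <;> linarith
  rw [← mul_sub, abs_mul, abs_of_pos h4] at h5
  have h6 : (4 : ℝ) ^ m * (1 / 4) ^ m = 1 := by
    rw [← mul_pow]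
    norm_num
  rw [← h6] at h5
  exact le_of_mul_le_mul_left h5 h4

theorem main : S_PIG := by
  intro hSQS hTRN hMOM hCNT ι _ H m hm hH h0 hcard
  classical
  obtain ⟨N0, hN0⟩ : ∃ N0, N0 = (m + 3) * 4 ^ m + 2 := ⟨_, rfl⟩
  have hT := hTRN
  let t : Finset (Finset ℕ × (Fin m → ℕ)) :=
    ((Finset.range (2 ^ (m + 1) + 1)).powerset.filter (fun F => F.card ≤ 4 * m + 1)) ×ˢ
      Fintype.piFinset (fun _ : Fin m => Finset.range N0)
  let f : ι → Finset ℕ × (Fin m → ℕ) := fun i =>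
    (trn m (H i), fun k => ⌊(4 : ℝ) ^ m * mom m k (H i)⌋₊ % N0)
  have hmaps : ∀ i ∈ (Finset.univ : Finset ι), f i ∈ t := by
    intro i _
    obtain ⟨_, _, h1, h2, _⟩ := hT m (H i) hm (hH i).1 (hH i).2
    refine Finset.mem_product.2 ⟨Finset.mem_filter.2 ⟨Finset.mem_powerset.2 fun h hh => ?_, h1⟩,
      Fintype.mem_piFinset.2 fun k => ?_⟩
    · rw [Finset.mem_range]
      exact Nat.lt_succ_of_le (h2 h hh)
    · rw [Finset.mem_range]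
      exact Nat.mod_lt _ (by omega)
  have hcards : t.card < (Finset.univ : Finset ι).card := by
    have h1 : t.card = ((Finset.range (2 ^ (m + 1) + 1)).powerset.filter
        (fun F => F.card ≤ 4 * m + 1)).card * N0 ^ m := by
      rw [Finset.card_product, Fintype.card_piFinset]
      simp
    have h2 := hCNT (2 ^ (m + 1) + 1) (4 * m + 1)
    have h3 : 2 ^ (m + 1) + 1 + 1 ≤ 2 ^ (m + 2) := by
      have : 2 ^ (m + 2) = 2 ^ (m + 1) + 2 ^ (m + 1) := by ring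
      have h4 : 1 ≤ 2 ^ m := Nat.one_le_two_pow
      have h5 : 2 ^ (m + 1) = 2 * 2 ^ m := by ring
      omega
    have h4 : N0 ^ m ≤ 2 ^ ((3 * m + 3) * m) := by
      rw [pow_mul, hN0]
      exact Nat.pow_le_pow_left (N0_le m) m
    have h5 : (2 ^ (m + 1) + 1 + 1) ^ (4 * m + 1) ≤ 2 ^ ((m + 2) * (4 * m + 1)) := by
      rw [pow_mul]
      exact Nat.pow_le_pow_left h3 _
    rw [h1, Finset.card_univ]
    refine lt_of_le_of_lt ?_ hcard
    calc _ ≤ 2 ^ ((m + 2) * (4 * m + 1)) * 2 ^ ((3 * m + 3) * m) :=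
          Nat.mul_le_mul (h2.trans h5) h4
      _ = 2 ^ ((m + 2) * (4 * m + 1) + (3 * m + 3) * m) := (pow_add _ _ _).symm
      _ ≤ 2 ^ (24 * m ^ 2) := Nat.pow_le_pow_right (by norm_num) (by nlinarith)
  obtain ⟨i, _, j, _, hij, hf⟩ := Finset.exists_ne_map_eq_of_card_lt_of_maps_to hcards hmaps
  have htr : trn m (H i) = trn m (H j) := congrArg Prod.fst hf
  have hfl : ∀ k : Fin m, ⌊(4 : ℝ) ^ m * mom m k (H i)⌋₊ % N0 =
      ⌊(4 : ℝ) ^ m * mom m k (H j)⌋₊ % N0 := fun k => congrFun (congrArg Prod.snd hf) k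
  refine ⟨i, j, hij, htr, fun k hk => ?_⟩
  refine close (mom_nonneg _ _ _) (mom_nonneg _ _ _) ?_ (by
    rw [← hN0]
    exact hfl ⟨k, hk⟩)
  rcases Nat.eq_zero_or_pos k with rfl | hk0
  · exact h0 i j htr
  · obtain ⟨h1, h2⟩ := hMOM hSQS hTRN m k (H i) hm hk0 (hH i).1 (hH i).2
    obtain ⟨h3, h4⟩ := hMOM hSQS hTRN m k (H j) hm hk0 (hH j).1 (hH j).2
    have hm0 : (0 : ℝ) ≤ m := Nat.cast_nonneg m
    rw [abs_le]
    constructor <;> linarith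

end Pool.Agent.N301.FRPIG
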